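import Pool.Agent.Y674.HY.Stm
import Pool.Agent.W273.Z.Gen

/-! Project HY, step APX (helper518). -/

set_option autoImplicit false

namespace Pool.Agent.Y518.HY

open Polynomial Pool.Agent.Y674.HY Pool.Agent.W273.Z

theorem apx : Pool.Agent.Y674.HY.APX := by
  intro d hd hd3
  obtain ⟨K, M, hK, h⟩ := gen d hd hd3 0 (1 / 2) le_rfl (by norm_num)
  refine ⟨2 * M, fun A hA => ⟨K * (3 * A ^ 2) ^ M, ?_⟩⟩
  rintro f H x y ⟨hfd, hsep, hH1, hcoef, hy⟩ hpos Z N hN0 hNA hZ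
  have hf0 : f ≠ 0 := by rintro rfl; simp at hfd; omega
  have hlc : f.leadingCoeff ≠ 0 := leadingCoeff_ne_zero.mpr hf0
  set u : ℝ := U f x with hu
  have hax1 : (1 : ℝ) ≤ (f.leadingCoeff : ℝ) * x := by exact_mod_cast hpos
  have hu2 : u ^ 2 = (f.leadingCoeff : ℝ) * x := by
    rw [hu, U, Real.sq_sqrt (by linarith)]
  have hu1 : 1 ≤ u := by
    rw [hu, U]
    exact Real.one_le_sqrt.2 hax1
  have hAR : (1 : ℝ) ≤ A := by exact_mod_cast hA
  have hHR : (1 : ℝ) ≤ H := by exact_mod_cast hH1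
  have hNR : |(N : ℝ)| ≤ A := by exact_mod_cast hNA
  -- the bound of `e`
  have he : |(Z : ℝ) ^ 2 - N ^ 2 * ((f.leadingCoeff : ℝ) * x)| ≤ 3 * A ^ 2 * H ^ 2 := by
    have h1 : (Z : ℝ) ^ 2 - N ^ 2 * ((f.leadingCoeff : ℝ) * x) = (Z - N * u) * (Z + N * u) := by
      rw [← hu2]; ring
    have h2 : |(Z : ℝ) + N * u| ≤ A * H / u + 2 * A * u := by
      have h3 : (Z : ℝ) + N * u = (Z - N * u) + 2 * N * u := by ring
      rw [h3]
      refine (abs_add_le _ _).trans (add_le_add hZ ?_)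
      rw [abs_mul, abs_mul, abs_of_nonneg (by linarith : (0 : ℝ) ≤ u), abs_two]
      exact mul_le_mul_of_nonneg_right (mul_le_mul_of_nonneg_left hNR (by norm_num)) (by linarith)
    rw [h1, abs_mul]
    have h4 : |(Z : ℝ) - N * u| * |(Z : ℝ) + N * u| ≤ (A * H / u) * (A * H / u + 2 * A * u) :=
      mul_le_mul hZ h2 (abs_nonneg _) (by positivity)
    refine h4.trans ?_
    have h5 : (A * H / u) * (A * H / u + 2 * A * u) = (A * H / u) ^ 2 + 2 * A ^ 2 * H := by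
      have : u ≠ 0 := by linarith
      field_simp
    rw [h5]
    have h6 : (A * H / u) ^ 2 ≤ (A * H : ℝ) ^ 2 := by
      apply pow_le_pow_left₀ (by positivity)
      exact div_le_self (by positivity) hu1
    nlinarith [mul_le_mul_of_nonneg_left hHR (by positivity : (0 : ℝ) ≤ 2 * A ^ 2 * H)]
  have heZ : |Z ^ 2 - N ^ 2 * (f.leadingCoeff * x)| ≤ ((3 * A ^ 2 * H ^ 2 : ℕ) : ℤ) := by
    exact_mod_cast he
  have hHH : (H : ℤ) ≤ ((3 * A ^ 2 * H ^ 2 : ℕ) : ℤ) := by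
    have : H ≤ 3 * A ^ 2 * H ^ 2 := by
      have h1 : 1 ≤ A ^ 2 := Nat.one_le_pow _ _ hA
      have h2 : H ≤ H ^ 2 := by nlinarith
      nlinarith
    exact_mod_cast this
  have hn : |N ^ 2 * f.leadingCoeff| ≤ ((3 * A ^ 2 * H ^ 2 : ℕ) : ℤ) := by
    rw [abs_mul, abs_pow]
    have h1 : |f.leadingCoeff| ≤ (H : ℤ) := hcoef _
    have h2 : |N| ^ 2 ≤ (A : ℤ) ^ 2 := pow_le_pow_left₀ (abs_nonneg _) hNA 2
    have h3 : |N| ^ 2 * |f.leadingCoeff| ≤ (A : ℤ) ^ 2 * H :=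
      mul_le_mul h2 h1 (abs_nonneg _) (by positivity)
    refine h3.trans ?_
    push_cast
    have hH' : (1 : ℤ) ≤ H := by exact_mod_cast hH1
    have h4 : (A : ℤ) ^ 2 * H ≤ (A : ℤ) ^ 2 * (H * H) :=
      mul_le_mul_of_nonneg_left (by nlinarith) (by positivity)
    nlinarith [sq_nonneg ((A : ℤ) * H)]
  rcases h f hfd hsep.squarefree (3 * A ^ 2 * H ^ 2) (by
      have h1 : 1 ≤ A ^ 2 := Nat.one_le_pow _ _ hA
      have h2 : 1 ≤ H ^ 2 := Nat.one_le_pow _ _ hH1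
      nlinarith) (fun i => (hcoef i).trans hHH) (N ^ 2 * f.leadingCoeff)
    (Z ^ 2 - N ^ 2 * (f.leadingCoeff * x)) (N * f.leadingCoeff) (mul_ne_zero hN0 hlc) (by ring)
    hn heZ x y hy Z 1 le_rfl (by simp) (by
      have h1 : ((1 : ℤ) : ℝ) ^ 2 * (((N ^ 2 * f.leadingCoeff : ℤ) : ℝ) * x +
          ((Z ^ 2 - N ^ 2 * (f.leadingCoeff * x) : ℤ) : ℝ)) - (Z : ℝ) ^ 2 = 0 := by
        push_cast
        ring
      rw [h1, abs_zero]
      positivity) with hfin | ⟨k, hk, m, Q, c, hc, hm, hmk, hid, hx, he⟩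
  · refine hfin.trans (le_of_eq ?_)
    push_cast
    ring
  · exfalso
    have hk0 : k = 0 := by
      have : (k : ℝ) ≤ 0 := by simpa using hk
      exact_mod_cast le_antisymm this (Nat.cast_nonneg k)
    have hn0 : N ^ 2 * f.leadingCoeff ≠ 0 := mul_ne_zero (pow_ne_zero 2 hN0) hlc
    set n := N ^ 2 * f.leadingCoeff with hndef
    set e := Z ^ 2 - N ^ 2 * (f.leadingCoeff * x) with hedef
    have hL : (C n * X + C e : ℤ[X]).natDegree = 1 := natDegree_linear hn0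
    have hL0 : (C n * X + C e : ℤ[X]) ≠ 0 := by
      intro h0
      rw [h0, natDegree_zero] at hL
      omega
    have h1 : (m * (C n * X + C e) - C c : ℤ[X]).natDegree = m.natDegree + 1 := by
      rw [natDegree_sub_C, natDegree_mul hm hL0, hL]
    have h1' : (m * (C n * X + C e) - C c : ℤ[X]) ≠ 0 := by
      intro h0
      rw [h0, natDegree_zero] at h1
      omega
    have h2 := congrArg natDegree hid
    have hQ : Q ≠ 0 := by
      rintro rfl
      rw [mul_zero, zero_mul] at hid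
      exact mul_ne_zero hm h1' hid.symm
    rw [natDegree_mul (mul_ne_zero hQ hQ) hf0, natDegree_mul hQ hQ, natDegree_mul hm h1', h1] at h2
    omega

end Pool.Agent.Y518.HY
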